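import Pool.Agent.Helper41.SQC.Goals

/-! MP_bb32d1_al, stage C, packet GID: `Gd` is invertible. -/

set_option autoImplicit false

namespace Pool.Agent.Helper22.SQC

noncomputable section

open Matrix Pool.Agent.Helper19.SQ Pool.Agent.Helper34.SQ Pool.Agent.Helper41.SQ
  Pool.Agent.Helper4.SQ Pool.Agent.Helper41.SQC

theorem mon_mapA {B C : Type*} [Ring B] [Algebra ℂ B] [Ring C] [Algebra ℂ C] (f : B →ₐ[ℂ] C)
    (N : ℕ) (q : ℂ) (E : ℕ → B) (b : ℕ → ℕ → ℕ) :
    mon N q (fun k => f (E k)) b = f (mon N q E b) := by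
  unfold mon
  rw [map_list_prod, List.map_map]
  congr 1
  refine List.map_congr_left fun i _ => ?_
  simp only [Function.comp_apply]
  unfold rowM
  rw [map_list_prod, List.map_map]
  congr 1
  refine List.map_congr_left fun d _ => ?_
  simp only [Function.comp_apply]
  rw [rv_map, map_pow]

theorem mon_zX {B : Type*} [Ring B] [Algebra ℂ B] (N l : ℕ) [NeZero l] (q : ℂ) (E : ℕ → B) :
    mon N q E (zX N l).1 = 1 := by
  unfold mon rowM zX
  simp

/-- units modulo a nil ideal. -/
theorem isUnit_of_aug {B : Type} [CommRing B] [Algebra ℂ B] (aug : B →ₐ[ℂ] ℂ)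
    (hn : ∀ b, aug b = 0 → IsNilpotent b) {b : B} (hb : aug b ≠ 0) : IsUnit b := by
  have h1 : IsNilpotent (b - algebraMap ℂ B (aug b)) := by
    apply hn
    rw [map_sub, AlgHom.commutes]
    simp
  have h2 : IsUnit (algebraMap ℂ B (aug b)) := (isUnit_iff_ne_zero.mpr hb).map _
  have h3 := h1.isUnit_add_left_of_commute h2 (Commute.all _ _)
  simpa using h3

section Red

variable {N l : ℕ} {q : ℂ} {B : Type} [CommRing B] [Algebra ℂ B]

theorem zF_aug (aug : B →ₐ[ℂ] ℂ) (k : ℕ) :
    (zF N l q B k).map aug = zF N l q ℂ k := by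
  ext a b
  simp [zF, Matrix.map_apply]

theorem zK_aug (aug : B →ₐ[ℂ] ℂ) (lam : Fin (N + 1) → ZMod l) (j : ℕ) :
    (zK q B lam j).map aug = zK q ℂ lam j := by
  ext a b
  unfold zK
  split_ifs
  · by_cases h : a = b
    · subst h
      simp only [Matrix.map_apply, Matrix.diagonal_apply_eq]
      exact aug.commutes _
    · simp only [Matrix.map_apply, Matrix.diagonal_apply_ne _ h, map_zero]
  · by_cases h : a = b
    · subst h
      simp only [Matrix.map_apply, Matrix.one_apply_eq, map_one]
    · simp only [Matrix.map_apply, Matrix.one_apply_ne h, map_zero]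

/-- entries of `comp` of `dFt`. -/
theorem vzF_aug (aug : B →ₐ[ℂ] ℂ) (t' : ℕ → B) (ht : ∀ i, aug (t' i) = 1)
    (lam : Fin (N + 1) → ZMod l) (k : ℕ) :
    (vzF q t' lam k).map aug = vzF q (fun _ => (1 : ℂ)) lam k := by
  have hK : ∀ j, aug.mapMatrix (zK q B lam j) = zK q ℂ lam j := fun j => zK_aug aug lam j
  have hF : aug.mapMatrix (zF N l q B k) = zF N l q ℂ k := zF_aug aug k
  have e : aug.mapMatrix (algebraMap B (Matrix (EX N l) (EX N l) B) (t' k))
      = algebraMap ℂ (Matrix (EX N l) (EX N l) ℂ) 1 := by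
    ext a b
    rw [AlgHom.mapMatrix_apply, Matrix.map_apply, Matrix.algebraMap_matrix_apply,
      Matrix.algebraMap_matrix_apply]
    split_ifs
    · exact ht k
    · exact map_zero _
  ext ⟨i, a⟩ ⟨j, b⟩
  have h0 : ∀ (X : Matrix (EX N l) (EX N l) B), aug (X a b) = (aug.mapMatrix X) a b :=
    fun X => rfl
  rw [Matrix.map_apply]
  unfold vzF
  rw [Matrix.comp_apply, Matrix.comp_apply]
  change aug ((dFt N l (fun k => algebraMap B (Matrix (EX N l) (EX N l) B) (t' k))
    (zF N l q B) (zK q B lam) k i j) a b) = _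
  rw [h0]
  refine congrFun (congrFun ?_ a) b
  change aug.mapMatrix (dFt N l (fun k => algebraMap B (Matrix (EX N l) (EX N l) B) (t' k))
    (zF N l q B) (zK q B lam) k i j) =
    dFt N l (fun k => algebraMap ℂ (Matrix (EX N l) (EX N l) ℂ) 1) (zF N l q ℂ) (zK q ℂ lam) k i j
  simp only [dFt, Matrix.of_apply, map_add]
  congr 1
  · split_ifs
    · exact hF
    · exact map_zero _
  · split_ifs
    · rw [map_mul, map_mul, e, hK]
      unfold ki
      rw [map_pow, hK]
    · exact map_zero _

theorem Gd_aug [NeZero l] (aug : B →ₐ[ℂ] ℂ) (t' : ℕ → B) (ht : ∀ i, aug (t' i) = 1)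
    (lam : Fin (N + 1) → ZMod l) :
    (Gd q t' lam).map aug = Gd q (fun _ => (1 : ℂ)) lam := by
  ext x y
  rw [Matrix.map_apply]
  unfold Gd
  rw [Matrix.of_apply, Matrix.of_apply]
  have h1 : vzF q (fun _ => (1 : ℂ)) lam = fun k => aug.mapMatrix (vzF q t' lam k) := by
    funext k
    exact (vzF_aug aug t' ht lam k).symm
  rw [h1, mon_mapA]
  rfl

end Red

section Span

variable {N l : ℕ} {q : ℂ}

/-- the range of a matrix that intertwines the action on generators is stable. -/
theorem range_stable {I : Type} [Fintype I] [DecidableEq I] (G : Matrix I I ℂ)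
    (R : A N l q →ₐ[ℂ] Matrix I I ℂ)
    (hE : ∀ k, ∃ T, R (gE N l q k) * G = G * T)
    (hF : ∀ k, ∃ T, R (gF N l q k) * G = G * T)
    (hK : ∀ k, ∃ T, R (gK N l q k) * G = G * T) (a : A N l q) :
    ∃ T, R a * G = G * T := by
  induction a using A_induction with
  | hc c =>
    refine ⟨algebraMap ℂ _ c, ?_⟩
    rw [AlgHom.commutes]
    exact Algebra.commutes _ _
  | hE i => exact hE i
  | hF i => exact hF i
  | hK i => exact hK i
  | hadd a b ha hb =>
    obtain ⟨S, hS⟩ := ha
    obtain ⟨T, hT⟩ := hb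
    exact ⟨S + T, by rw [map_add, add_mul, mul_add, hS, hT]⟩
  | hmul a b ha hb =>
    obtain ⟨S, hS⟩ := ha
    obtain ⟨T, hT⟩ := hb
    exact ⟨S * T, by rw [map_mul, mul_assoc, hT, ← mul_assoc, hS, mul_assoc]⟩

end Span

theorem dFt_one {R : Type} [Ring R] [Algebra ℂ R] (N l : ℕ) (F K : ℕ → R) (k : ℕ) :
    dFt N l (fun _ => (1 : R)) F K k = dF N l F K k := by
  ext a b
  simp only [dFt, dF, Matrix.of_apply, one_mul]

theorem dE_mapA {R S : Type} [Ring R] [Algebra ℂ R] [Ring S] [Algebra ℂ S] (f : R →ₐ[ℂ] S)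
    (N : ℕ) (q : ℂ) (E : ℕ → R) (k : ℕ) :
    (dE N q E k).map f = dE N q (fun i => f (E i)) k := by
  ext a b
  simp only [dE, Matrix.map_apply, Matrix.of_apply, map_add]
  congr 1
  · split_ifs
    · rw [map_smul]
    · exact map_zero _
  · split_ifs
    · exact map_one _
    · exact map_zero _

theorem dF_mapA {R S : Type} [Ring R] [Algebra ℂ R] [Ring S] [Algebra ℂ S] (f : R →ₐ[ℂ] S)
    (N l : ℕ) (F K : ℕ → R) (k : ℕ) :
    (dF N l F K k).map f = dF N l (fun i => f (F i)) (fun i => f (K i)) k := by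
  ext a b
  simp only [dF, Matrix.map_apply, Matrix.of_apply, map_add]
  congr 1
  · split_ifs
    · rfl
    · exact map_zero _
  · split_ifs
    · unfold ki
      rw [map_mul, map_pow]
    · exact map_zero _

theorem dK_mapA {R S : Type} [Ring R] [Algebra ℂ R] [Ring S] [Algebra ℂ S] (f : R →ₐ[ℂ] S)
    (N : ℕ) (q : ℂ) (K : ℕ → R) (j : ℕ) :
    (dK N q K j).map f = dK N q (fun i => f (K i)) j := by
  ext a b
  simp only [dK, Matrix.map_apply, Matrix.of_apply]
  split_ifs
  · rw [map_smul]
  · rw [map_smul]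
  · exact map_zero _

theorem c_gid (hGD : S_GD) (hZC : S_ZC) (hCUP : S_CUP0) : S_GID := by
  intro N l _ q D hP V B _ _ aug hn t' ht lam
  apply isUnit_of_aug aug hn
  have e1 : aug (Gd q t' lam).det = (Gd q (fun _ => (1 : ℂ)) lam).det := by
    rw [← Gd_aug aug t' ht lam]
    have := RingHom.map_det aug.toRingHom (Gd q t' lam)
    exact this
  rw [e1]
  set G := Gd q (fun _ => (1 : ℂ)) lam with hG
  obtain ⟨hgl, -, hmon⟩ := hZC N l q D hP V lam
  let ρ : A N l q →ₐ[ℂ] Matrix (EX N l) (EX N l) ℂ := liftA hgl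
  let R : A N l q →ₐ[ℂ] Matrix (Fin (N + 1) × EX N l) (Fin (N + 1) × EX N l) ℂ :=
    (Matrix.compAlgEquiv (Fin (N + 1)) (EX N l) ℂ ℂ).toAlgHom.comp
      ((AlgHom.mapMatrix ρ).comp D.dl)
  have hR : ∀ a, R a = Matrix.comp _ _ _ _ _ ((D.dl a).map ρ) := fun a => rfl
  have one1 : (fun _ : ℕ => algebraMap ℂ (Matrix (EX N l) (EX N l) ℂ) 1) = fun _ => 1 := by
    funext _
    exact map_one _
  have RE : ∀ k, R (gE N l q k) = vzE V (fun _ => (1 : ℂ)) (fun _ => 1) lam k := by
    intro k
    rw [hR, D.dl_E, dE_mapA]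
    unfold vzE
    congr 2
    funext i
    exact liftA_E hgl i
  have RF : ∀ k, R (gF N l q k) = vzF q (fun _ => (1 : ℂ)) lam k := by
    intro k
    rw [hR, D.dl_F, dF_mapA]
    unfold vzF
    rw [one1, dFt_one]
    congr 2
    · funext i
      exact liftA_F hgl i
    · funext i
      exact liftA_K hgl i
  have RK : ∀ k, R (gK N l q k) = vzK q ℂ lam k := by
    intro k
    rw [hR, D.dl_K, dK_mapA]
    unfold vzK
    congr 2
    funext i
    exact liftA_K hgl i
  have hgd := fun k => hGD N l q D hP V ℂ (fun _ => (1 : ℂ)) (fun _ => 1) (fun _ => one_mul 1) lam k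
  have hst : ∀ a, ∃ T, R a * G = G * T := by
    refine range_stable G R (fun k => ?_) (fun k => ?_) (fun k => ?_)
    · rw [RE]; exact ⟨_, (hgd k).1⟩
    · rw [RF]; exact ⟨_, (hgd k).2.1⟩
    · rw [RK]; exact ⟨_, (hgd k).2.2⟩
  -- the vectors `u_j`
  have hu : ∀ j : Fin (N + 1), G *ᵥ Pi.single (j, zX N l) 1 = Pi.single (j, zX N l) 1 := by
    intro j
    funext x
    rw [Matrix.mulVec_single_one]
    change G x (j, zX N l) = _
    rw [hG]
    unfold Gd
    rw [Matrix.of_apply]
    change (mon N q (vzF q (fun _ => (1 : ℂ)) lam) (zX N l).1) x (j, zX N l) = _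
    rw [mon_zX, Matrix.one_apply, Pi.single_apply]
  have hsurj : Function.Surjective G.mulVec := by
    have hrange : ∀ w : Fin (N + 1) × EX N l → ℂ, w ∈ LinearMap.range G.mulVecLin := by
      have hb : ∀ x : Fin (N + 1) × EX N l,
          (Pi.single x 1 : Fin (N + 1) × EX N l → ℂ) ∈ LinearMap.range G.mulVecLin := by
        rintro ⟨j, b⟩
        let a : A N l q := mon N q (gF N l q) b.1
        have hs : ∀ i : Fin (N + 1), R (D.ep a j i) *ᵥ Pi.single (i, zX N l) 1
            ∈ LinearMap.range G.mulVecLin := by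
          intro i
          obtain ⟨T, hT⟩ := hst (D.ep a j i)
          refine ⟨T *ᵥ Pi.single (i, zX N l) 1, ?_⟩
          rw [Matrix.mulVecLin_apply, Matrix.mulVec_mulVec, ← hT, ← Matrix.mulVec_mulVec, hu]
        have hsum := Submodule.sum_mem _ fun (i : Fin (N + 1)) (_ : i ∈ Finset.univ) => hs i
        have e2 : ∑ i : Fin (N + 1), R (D.ep a j i) *ᵥ Pi.single (i, zX N l) 1
            = (Pi.single (j, b) 1 : Fin (N + 1) × EX N l → ℂ) := by
          funext ⟨p, c⟩
          rw [Finset.sum_apply]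
          have e3 : ∀ i : Fin (N + 1), (R (D.ep a j i) *ᵥ Pi.single (i, zX N l) 1) (p, c)
              = ρ (D.dl (D.ep a j i) p i) c (zX N l) := by
            intro i
            rw [Matrix.mulVec_single_one]
            rfl
          rw [Finset.sum_congr rfl fun i _ => e3 i]
          have e4 : ∑ i : Fin (N + 1), ρ (D.dl (D.ep a j i) p i) c (zX N l)
              = ρ (∑ i : Fin (N + 1), D.dl (D.ep a j i) p i) c (zX N l) := by
            rw [map_sum, Matrix.sum_apply]
          rw [e4, hCUP N l q hP D a p j]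
          by_cases hjp : j = p
          · subst hjp
            rw [if_pos rfl]
            have e5 : ρ a = mon N q (zF N l q ℂ) b.1 := by
              change ρ (mon N q (gF N l q) b.1) = _
              rw [← mon_mapA]
              congr 1
              funext k
              exact liftA_F hgl k
            have e6 := congrFun (hmon b) c
            rw [Matrix.mulVec_single_one] at e6
            rw [e5]
            refine Eq.trans e6 ?_
            rw [Pi.single_apply, Pi.single_apply]
            by_cases hcb : c = b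
            · rw [if_pos hcb, if_pos (by rw [hcb])]
            · rw [if_neg hcb, if_neg (fun h => hcb (Prod.mk.inj h).2)]
          · rw [if_neg hjp, map_zero, Matrix.zero_apply, Pi.single_apply, if_neg]
            exact fun h => hjp (Prod.mk.inj h).1.symm
        rw [← e2]
        exact hsum
      intro w
      have : w = ∑ x, w x • (Pi.single x 1 : Fin (N + 1) × EX N l → ℂ) := by
        funext y
        simp [Finset.sum_apply, Pi.single_apply]
      rw [this]
      exact Submodule.sum_mem _ fun x _ => Submodule.smul_mem _ _ (hb x)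
    intro w
    obtain ⟨v, hv⟩ := hrange w
    exact ⟨v, hv⟩
  have h3 : IsUnit G := Matrix.mulVec_surjective_iff_isUnit.mp hsurj
  exact ((Matrix.isUnit_iff_isUnit_det _).mp h3).ne_zero

end

end Pool.Agent.Helper22.SQC
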